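import Pool.Agent.Helper59.IP.Defs

/-!
# Independence polynomials: the combinatorial rules
-/

set_option autoImplicit false

namespace Pool.Agent.Helper59.IP

open Finset

section

variable {V W K C : Type} [Fintype V] [Fintype W] [Fintype K] [CommRing C] {G : SimpleGraph V}

lemma indSum_ite [∀ s : Finset V, Decidable (G.IsIndepSet (s : Set V))] (x : V → C) :
    indSum G x = ∑ s : Finset V, if G.IsIndepSet (s : Set V) then ∏ v ∈ s, x v else 0 := by
  rw [indSum]
  apply sum_congr rfl
  intro s _
  congr

lemma indSum_map {D : Type} [CommRing D] (f : C →+* D) (G : SimpleGraph V) (x : V → C) :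
    indSum G (fun v => f (x v)) = f (indSum G x) := by
  rw [indSum, indSum, map_sum]
  apply sum_congr rfl
  intro s _
  rw [apply_ite f, map_prod, map_zero]

lemma indSum_equiv (e : V ≃ W) (G : SimpleGraph W) (x : W → C) :
    indSum (G.comap e) (fun v => x (e v)) = indSum G x := by
  classical
  rw [indSum_ite, indSum_ite]
  refine Fintype.sum_equiv e.finsetCongr _ _ fun s => ?_
  have h1 : (G.comap e).IsIndepSet (s : Set V) ↔
      G.IsIndepSet ((e.finsetCongr s : Finset W) : Set W) := by
    rw [Equiv.finsetCongr_apply, coe_map, SimpleGraph.isIndepSet_iff, SimpleGraph.isIndepSet_iff]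
    constructor
    · rintro h _ ⟨a, ha, rfl⟩ _ ⟨b, hb, rfl⟩ hab
      exact h ha hb fun h2 => hab (h2 ▸ rfl)
    · intro h a ha b hb hab
      exact h ⟨a, ha, rfl⟩ ⟨b, hb, rfl⟩ fun h2 => hab (e.injective h2)
  by_cases h : (G.comap e).IsIndepSet (s : Set V)
  · rw [if_pos h, if_pos (h1.1 h), Equiv.finsetCongr_apply, prod_map]
    rfl
  · rw [if_neg h, if_neg fun h2 => h (h1.2 h2)]

/-- A sum over all subsets whose terms are zero for the sets with at least two elements. -/
lemma sum_small (f : Finset K → C) (h : ∀ s : Finset K, ∀ a ∈ s, ∀ b ∈ s, a ≠ b → f s = 0) :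
    ∑ s, f s = f ∅ + ∑ k, f {k} := by
  classical
  have h1 : ∑ s ∈ insert (∅ : Finset K) (univ.map ⟨fun k : K => ({k} : Finset K),
      singleton_injective⟩), f s = ∑ s, f s := by
    refine sum_subset (subset_univ _) fun s _ hs => ?_
    rcases s.eq_empty_or_nonempty with rfl | ⟨a, ha⟩
    · exact absurd (mem_insert_self _ _) hs
    · by_cases h2 : ∃ b ∈ s, a ≠ b
      · obtain ⟨b, hb, hab⟩ := h2
        exact h s a ha b hb hab
      · exfalso
        push Not at h2
        have h3 : s = {a} := by
          ext b
          rw [mem_singleton]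
          exact ⟨fun hb => (h2 b hb).symm, fun hb => hb ▸ ha⟩
        apply hs
        rw [mem_insert, mem_map]
        exact Or.inr ⟨a, mem_univ _, h3.symm⟩
  rw [← h1, sum_insert, sum_map]
  · rfl
  · rw [mem_map]
    rintro ⟨a, -, h2⟩
    exact (singleton_ne_empty a) h2

open Classical in
/-- The value of the function `y` on the vertices that are not adjacent to the vertex `k`. -/
noncomputable def mask (G : SimpleGraph (K ⊕ W)) (k : K) (y : W → C) (w : W) : C :=
  if G.Adj (Sum.inl k) (Sum.inr w) then 0 else y w

/-- **The rule for a clique.** If `K` is a clique then an independent set contains at most one element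
of `K`. -/
lemma indSum_clique (G : SimpleGraph (K ⊕ W))
    (hK : ∀ a b : K, a ≠ b → G.Adj (Sum.inl a) (Sum.inl b)) (x : K ⊕ W → C) :
    indSum G x = indSum (G.comap Sum.inr) (fun w => x (Sum.inr w)) +
      ∑ k, x (Sum.inl k) * indSum (G.comap Sum.inr) (mask G k fun w => x (Sum.inr w)) := by
  classical
  have h0 : indSum G x = ∑ s : Finset K, ∑ t : Finset W,
      if G.IsIndepSet ((s.disjSum t : Finset (K ⊕ W)) : Set (K ⊕ W)) then
        (∏ k ∈ s, x (Sum.inl k)) * ∏ w ∈ t, x (Sum.inr w) else 0 := by
    rw [indSum_ite, ← Fintype.sum_prod_type']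
    refine Fintype.sum_equiv Finset.sumEquiv.toEquiv _ _ fun s => ?_
    have h1 : ((sumEquiv.toEquiv s).1.disjSum (sumEquiv.toEquiv s).2) = s :=
      toLeft_disjSum_toRight
    rw [h1, ← prod_disjSum, h1]
  rw [h0, sum_small]
  · congr 1
    · rw [indSum_ite]
      apply sum_congr rfl
      intro t _
      have h1 : G.IsIndepSet (((∅ : Finset K).disjSum t : Finset (K ⊕ W)) : Set (K ⊕ W)) ↔
          (G.comap Sum.inr).IsIndepSet (t : Set W) := by
        rw [SimpleGraph.isIndepSet_iff, SimpleGraph.isIndepSet_iff]
        constructor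
        · intro h a ha b hb hab
          exact h (by simpa using ha) (by simpa using hb) fun h2 => hab (Sum.inr_injective h2)
        · rintro h (a | a) ha (b | b) hb hab
          · simp at ha
          · simp at ha
          · simp at hb
          · exact h (by simpa using ha) (by simpa using hb) fun h2 => hab (h2 ▸ rfl)
      simp only [h1, prod_empty, one_mul]
    · apply sum_congr rfl
      intro k _
      rw [indSum_ite, mul_sum]
      apply sum_congr rfl
      intro t _
      rw [prod_singleton]
      have h1 : G.IsIndepSet ((({k} : Finset K).disjSum t : Finset (K ⊕ W)) : Set (K ⊕ W)) ↔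
          (G.comap Sum.inr).IsIndepSet (t : Set W) ∧ ∀ w ∈ t, ¬ G.Adj (Sum.inl k) (Sum.inr w) := by
        rw [SimpleGraph.isIndepSet_iff, SimpleGraph.isIndepSet_iff]
        constructor
        · intro h
          refine ⟨fun a ha b hb hab => h (by simpa using ha) (by simpa using hb) fun h2 =>
            hab (Sum.inr_injective h2), fun w hw => ?_⟩
          exact h (by simp) (by simpa using hw) Sum.inl_ne_inr
        · rintro ⟨h, h'⟩ (a | a) ha (b | b) hb hab
          · have h3 : a = k := by simpa using ha
            have h4 : b = k := by simpa using hb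
            exact absurd (by rw [h3, h4]) hab
          · have h3 : a = k := by simpa using ha
            rw [h3]
            exact h' b (by simpa using hb)
          · have h3 : b = k := by simpa using hb
            rw [h3]
            exact fun h4 => h' a (by simpa using ha) h4.symm
          · exact h (by simpa using ha) (by simpa using hb) fun h2 => hab (h2 ▸ rfl)
      by_cases h2 : (G.comap Sum.inr).IsIndepSet (t : Set W)
      · rw [if_pos h2]
        by_cases h3 : ∀ w ∈ t, ¬ G.Adj (Sum.inl k) (Sum.inr w)
        · rw [if_pos (h1.2 ⟨h2, h3⟩)]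
          congr 1
          apply prod_congr rfl
          intro w hw
          rw [mask, if_neg (h3 w hw)]
        · rw [if_neg fun h4 => h3 (h1.1 h4).2]
          push Not at h3
          obtain ⟨w, hw, h3⟩ := h3
          rw [prod_eq_zero hw (by rw [mask, if_pos h3]), mul_zero]
      · rw [if_neg h2, if_neg fun h4 => h2 (h1.1 h4).1, mul_zero]
  · intro s a ha b hb hab
    apply sum_eq_zero
    intro t _
    rw [if_neg]
    intro h
    exact h (by simpa using ha) (by simpa using hb) (fun h2 => hab (Sum.inl_injective h2))
      (hK a b hab)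

/-- The independence polynomial of a clique. -/
lemma indSum_top (G : SimpleGraph K) (hK : ∀ a b : K, a ≠ b → G.Adj a b) (x : K → C) :
    indSum G x = 1 + ∑ k, x k := by
  classical
  rw [indSum_ite, sum_small]
  · have h1 : ∀ k ∈ (univ : Finset K), (if G.IsIndepSet (({k} : Finset K) : Set K) then
        ∏ v ∈ ({k} : Finset K), x v else 0) = x k := fun k _ => by
      rw [if_pos (by simp), prod_singleton]
    rw [sum_congr rfl h1, if_pos (by simp), prod_empty]
  · intro s a ha b hb hab
    rw [if_neg]
    intro h
    exact h ha hb hab (hK a b hab)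

/-- A vertex with the weight zero can be deleted. -/
lemma indSum_delete [DecidableEq V] (G : SimpleGraph V) (v : V) (x : V → C) (hx : x v = 0) :
    indSum G x = indSum (G.comap (Subtype.val : {u // u ≠ v} → V)) (fun u => x u.1) := by
  let e : Unit ⊕ {u // u ≠ v} ≃ V := (Equiv.sumComm _ _).trans ((Equiv.optionEquivSumPUnit.{0} _).symm.trans
    (Equiv.optionSubtypeNe v))
  have h1 : e (Sum.inl ()) = v := rfl
  have h2 : ∀ u, e (Sum.inr u) = u.1 := fun u => rfl
  rw [← indSum_equiv e G x, indSum_clique]
  · simp only [h1, h2, hx, zero_mul, sum_const_zero, add_zero]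
    rfl
  · intro a b hab
    exact absurd (Subsingleton.elim a b) hab

end

end Pool.Agent.Helper59.IP
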