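import Pool.Agent.Helper59.IP.A
import Pool.Agent.Helper3.GU.Cubic

/-!
# The complements of the hypersurfaces of independence polynomials: functors of points
-/

set_option autoImplicit false

open CategoryTheory AlgebraicGeometry Pool.Agent.Y116.UV Pool.Agent.Q282.UK Pool.Agent.Helper3.GU

namespace Pool.Agent.Helper59.IP

variable {R : Type} [CommRing R] {sep : Prop} {P : Sch R → Prop}

/-! ### Complements -/

/-- The points of the complement of the hypersurface with invertible coordinates in `U`. -/
noncomputable def IU {V : Type} [Fintype V] (G : SimpleGraph V) (U : Finset V) : PF where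
  pts C _ := {x : V → C // (∀ v ∈ U, IsUnit (x v)) ∧ IsUnit (indSum G x)}
  map f x := ⟨fun v => f (x.1 v), fun v hv => (x.2.1 v hv).map f, by
    rw [indSum_map]
    exact x.2.2.map f⟩
  map_id _ := rfl
  map_comp _ _ _ := rfl

lemma threeCliques_comap {V W : Type} (e : V → W) (he : Function.Injective e) {G : SimpleGraph W}
    (h : ThreeCliques G) : ThreeCliques (G.comap e) := by
  obtain ⟨c, hc⟩ := h
  exact ⟨fun v => c (e v), fun u v huv h1 => hc _ _ (fun h2 => huv (he h2)) h1⟩

section

variable {V W : Type} [Fintype V] [Fintype W]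

/-- Renaming the vertices. -/
noncomputable def iuCongr (e : V ≃ W) (G : SimpleGraph W) (U : Finset V) (U' : Finset W)
    (hU : ∀ v, v ∈ U ↔ e v ∈ U') : PIso (IU (G.comap e) U) (IU G U') where
  fwd x := ⟨fun w => x.1 (e.symm w), fun w hw => x.2.1 _ ((hU _).2 (by
    rwa [e.apply_symm_apply])), by
      have h := indSum_equiv e G fun w => x.1 (e.symm w)
      simp only [e.symm_apply_apply] at h
      rw [← h]
      exact x.2.2⟩
  bwd x := ⟨fun v => x.1 (e v), fun v hv => x.2.1 _ ((hU v).1 hv), by
    rw [indSum_equiv e G x.1]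
    exact x.2.2⟩
  left x := Subtype.ext (funext fun v => congrArg x.1 (e.symm_apply_apply v))
  right x := Subtype.ext (funext fun w => congrArg x.1 (e.apply_symm_apply w))
  nat _ _ := rfl

/-- the partition function -/
noncomputable def iF (G : SimpleGraph V) : NF (PT.aff V) where
  fn p := indSum G p.2
  nat f p := by
    change indSum G (fun v => f (p.2 v)) = _
    rw [indSum_map]

/-- the partition function times the product of the variables -/
noncomputable def iT (G : SimpleGraph V) : NF (PT.aff V) where
  fn p := indSum G p.2 * ∏ v, p.2 v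
  nat f p := by
    change indSum G (fun v => f (p.2 v)) * ∏ v, f (p.2 v) = _
    rw [indSum_map, map_mul, map_prod]

/-- the complement in the affine space -/
noncomputable def iFIso (G : SimpleGraph V) : PIso ((PT.aff V).unit (iF G)) (IU G ∅) where
  fwd x := ⟨x.1.2, fun v hv => absurd hv (Finset.notMem_empty v), x.2⟩
  bwd y := ⟨((), y.1), y.2.2⟩
  left _ := rfl
  right _ := rfl
  nat _ _ := rfl

/-- the complement in the torus -/
noncomputable def iTIso (G : SimpleGraph V) : PIso ((PT.aff V).unit (iT G)) (IU G Finset.univ) where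
  fwd x := ⟨x.1.2, fun v _ => by
    have h : IsUnit (∏ v, x.1.2 v) := isUnit_of_mul_isUnit_right x.2
    exact IsUnit.prod_univ_iff.1 h v, isUnit_of_mul_isUnit_left x.2⟩
  bwd y := ⟨((), y.1), y.2.2.mul (IsUnit.prod_univ_iff.2 fun v => y.2.1 v (Finset.mem_univ v))⟩
  left _ := rfl
  right _ := rfl
  nat _ _ := rfl

end

lemma holds_indS {n : ℕ} (G : SimpleGraph (Fin n)) (h : P (indS R G)) : Holds P (IU G ∅) := by
  have h1 := (rep_PT (R := R)).aff (Fin n)
  have h2 : Holds P ((PT.aff (Fin n)).unit (iF G)) :=
    ⟨_, inferInstance, inferInstance, ft_loc _ _, _, h1.unit (iF G) rfl, h⟩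
  exact h2.congr (iFIso G)

lemma holds_indT {n : ℕ} (G : SimpleGraph (Fin n)) (h : P (indT R G)) :
    Holds P (IU G Finset.univ) := by
  have h1 := (rep_PT (R := R)).aff (Fin n)
  have h2 : Holds P ((PT.aff (Fin n)).unit (iT G)) :=
    ⟨_, inferInstance, inferInstance, ft_loc _ _, _, h1.unit (iT G) rfl, h⟩
  exact h2.congr (iTIso G)

/-- From graphs with the vertices `0, …, n - 1` to all finite types of vertices. -/
lemma holds_empty (h : ∀ (n : ℕ) (G : SimpleGraph (Fin n)), ThreeCliques G → P (indS R G))
    {V : Type} [Fintype V] (G : SimpleGraph V) (hG : ThreeCliques G) : Holds P (IU G ∅) := by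
  let e := (Fintype.equivFin V).symm
  have h1 := holds_indS _ (h _ (G.comap e) (threeCliques_comap e e.injective hG))
  exact h1.congr (iuCongr e G ∅ ∅ (by simp))

/-- From graphs with the vertices `0, …, n - 1` to all finite types of vertices. -/
lemma holds_univ (h : ∀ (n : ℕ) (G : SimpleGraph (Fin n)), ThreeCliques G → P (indT R G))
    {V : Type} [Fintype V] (G : SimpleGraph V) (hG : ThreeCliques G) :
    Holds P (IU G Finset.univ) := by
  let e := (Fintype.equivFin V).symm
  have h1 := holds_indT _ (h _ (G.comap e) (threeCliques_comap e e.injective hG))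
  exact h1.congr (iuCongr e G Finset.univ Finset.univ (by simp))

/-! ### From the torus to the affine space -/

section

variable {V : Type} [Fintype V] [DecidableEq V]

omit [DecidableEq V] in
lemma hasRep_IU (G : SimpleGraph V) (U : Finset V) : HasRep R (IU G U) := by
  let g : NF (PT.aff V) := ⟨fun p => indSum G p.2 * ∏ v ∈ U, p.2 v, fun f p => by
    change indSum G (fun v => f (p.2 v)) * ∏ v ∈ U, f (p.2 v) = _
    rw [indSum_map, map_mul, map_prod]⟩
  refine ((hasRep_PT.aff V).unit g).congr ⟨fun x => ⟨x.1.2, fun v hv => ?_,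
    isUnit_of_mul_isUnit_left x.2⟩, fun y => ⟨((), y.1), ?_⟩, fun _ => rfl, fun _ => rfl,
    fun _ _ => rfl⟩
  · have h : IsUnit (∏ v ∈ U, x.1.2 v) := isUnit_of_mul_isUnit_right x.2
    exact (IsUnit.prod_iff.1 h) v hv
  · exact y.2.2.mul (IsUnit.prod_iff.2 y.2.1)

/-- the coordinate of a vertex -/
noncomputable def xv (G : SimpleGraph V) (U : Finset V) (v : V) : NF (IU G U) where
  fn x := x.1 v
  nat _ _ := rfl

/-- extension by zero -/
def ext0 {C : Type} [CommRing C] (v : V) (y : {u // u ≠ v} → C) (u : V) : C :=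
  if h : u ≠ v then y ⟨u, h⟩ else 0

omit [Fintype V] in
lemma ext0_ne {C : Type} [CommRing C] (v : V) (y : {u // u ≠ v} → C) (u : {u // u ≠ v}) :
    ext0 v y u.1 = y u := dif_pos u.2

omit [Fintype V] in
lemma ext0_self {C : Type} [CommRing C] (v : V) (y : {u // u ≠ v} → C) : ext0 v y v = 0 :=
  dif_neg (not_not.2 rfl)

/-- the part where a coordinate is zero -/
noncomputable def deleteIso (G : SimpleGraph V) (U : Finset V) (v : V) (hv : v ∉ U) :
    PIso ((IU G U).zero (xv G U v))
      (IU (G.comap (Subtype.val : {u // u ≠ v} → V)) (U.subtype fun u => u ≠ v)) where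
  fwd x := ⟨fun u => x.1.1 u.1, fun u hu => x.1.2.1 _ (Finset.mem_subtype.1 hu), by
    rw [← indSum_delete G v x.1.1 x.2]
    exact x.1.2.2⟩
  bwd y := ⟨⟨ext0 v y.1, fun u hu => by
    have h : u ≠ v := fun h => hv (h ▸ hu)
    rw [ext0_ne v y.1 ⟨u, h⟩]
    exact y.2.1 ⟨u, h⟩ (Finset.mem_subtype.2 hu), by
    rw [indSum_delete G v _ (ext0_self v _)]
    simp only [ext0_ne]
    exact y.2.2⟩, ext0_self v _⟩
  left x := by
    apply Subtype.ext
    apply Subtype.ext
    funext u
    by_cases h : u = v
    · subst h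
      exact (ext0_self u _).trans x.2.symm
    · exact ext0_ne v _ ⟨u, h⟩
  right y := by
    apply Subtype.ext
    funext u
    exact ext0_ne v _ u
  nat f y := rfl

end

/-- From the torus to the affine space. -/
theorem holds_IU (hP : Mot sep P)
    (h : ∀ (V : Type) [Fintype V] (G : SimpleGraph V), ThreeCliques G →
      Holds P (IU G Finset.univ)) (n : ℕ) :
    ∀ (V : Type) [Fintype V] [DecidableEq V] (G : SimpleGraph V) (U : Finset V),
      ThreeCliques G → Uᶜ.card = n → Holds P (IU G U) := by
  induction n with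
  | zero =>
    intro V _ _ G U hG hU
    rw [Finset.card_eq_zero, Finset.compl_eq_empty_iff] at hU
    subst hU
    exact h V G hG
  | succ n ih =>
    intro V _ _ G U hG hU
    obtain ⟨v, U', hv, hU', hn⟩ := Finset.card_eq_succ.1 hU
    have hvU : v ∉ U := by
      have h1 : v ∈ Uᶜ := hU' ▸ Finset.mem_insert_self v U'
      exact Finset.mem_compl.1 h1
    have h2 : (insert v U)ᶜ = U' := by
      rw [Finset.compl_insert, ← hU', Finset.erase_insert hv]
    refine Holds.total hP (hasRep_IU G U) (xv G U v) ?_ ?_
    · refine (ih _ (G.comap (Subtype.val : {u // u ≠ v} → V)) (U.subtype fun u => u ≠ v)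
        (threeCliques_comap _ Subtype.val_injective hG) ?_).congr (deleteIso G U v hvU).symm
      have h3 := Fintype.card_congr (Equiv.optionSubtypeNe v)
      rw [Fintype.card_option] at h3
      have h4 : (U.subtype fun u => u ≠ v).card = U.card := by
        rw [Finset.card_subtype, Finset.filter_true_of_mem]
        intro f hf h3
        exact hvU (h3 ▸ hf)
      rw [Finset.card_compl] at hU ⊢
      rw [h4]
      omega
    · refine (ih V G (insert v U) hG (by rw [h2, hn])).congr (PIso.symm
        ⟨fun x => ⟨x.1.1, fun u hu => ?_, x.1.2.2⟩,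
        fun y => ⟨⟨y.1, fun u hu => y.2.1 u (Finset.mem_insert_of_mem hu), y.2.2⟩,
          y.2.1 v (Finset.mem_insert_self v U)⟩, fun _ => rfl, fun _ => rfl, fun _ _ => rfl⟩)
      rcases Finset.mem_insert.1 hu with rfl | hu
      · exact x.2
      · exact x.1.2.1 u hu

end Pool.Agent.Helper59.IP
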