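import Pool.Graph.R_seed8.Y116.UV.Defs

/-!
# Independence polynomials: definitions

The multivariate independence polynomial of a graph (the partition function of the lattice gas with hard
core interaction), the complement of its hypersurface in the affine space and in the torus, and the
hypersurface in the affine space and in the torus.
-/

set_option autoImplicit false

open CategoryTheory AlgebraicGeometry Pool.Agent.Y116.UV

namespace Pool.Agent.Helper59.IP

open Classical in
/-- The sum of the products `∏_{v ∈ s} x_v` over all independent sets `s` of the graph. -/
noncomputable def indSum {V C : Type} [Fintype V] [CommRing C] (G : SimpleGraph V) (x : V → C) : C :=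
  ∑ s : Finset V, if G.IsIndepSet (s : Set V) then ∏ v ∈ s, x v else 0

/-- The multivariate independence polynomial of a graph. -/
noncomputable def indPoly (R : Type) [CommRing R] {n : ℕ} (G : SimpleGraph (Fin n)) :
    MvPolynomial (Fin n) R :=
  indSum G MvPolynomial.X

/-- The vertices are covered by three cliques. -/
def ThreeCliques {V : Type} (G : SimpleGraph V) : Prop :=
  ∃ c : V → Fin 3, ∀ u v, u ≠ v → c u = c v → G.Adj u v

/-- The complement in the affine space of the hypersurface of the independence polynomial. -/
noncomputable def indS (R : Type) [CommRing R] {n : ℕ} (G : SimpleGraph (Fin n)) : Sch R :=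
  aff R (Localization.Away (indPoly R G))

/-- The hypersurface of the independence polynomial in the affine space. -/
noncomputable def indH (R : Type) [CommRing R] {n : ℕ} (G : SimpleGraph (Fin n)) : Sch R :=
  aff R (MvPolynomial (Fin n) R ⧸ Ideal.span {indPoly R G})

/-- The complement in the torus of the hypersurface of the independence polynomial. -/
noncomputable def indT (R : Type) [CommRing R] {n : ℕ} (G : SimpleGraph (Fin n)) : Sch R :=
  aff R (Localization.Away (indPoly R G * ∏ v, MvPolynomial.X v))

/-- The hypersurface of the independence polynomial in the torus. -/
noncomputable def indHT (R : Type) [CommRing R] {n : ℕ} (G : SimpleGraph (Fin n)) : Sch R :=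
  aff R (Localization.Away (Ideal.Quotient.mk (Ideal.span {indPoly R G})
    (∏ v, (MvPolynomial.X v : MvPolynomial (Fin n) R))))

end Pool.Agent.Helper59.IP
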