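import Pool.Agent.Helper59.IP.Sys

/-!
# The encoding of the hypersurfaces `T(x, y, z) = 1`
-/

set_option autoImplicit false

open CategoryTheory AlgebraicGeometry Pool.Agent.Y116.UV Pool.Agent.Q282.UK Pool.Agent.Helper3.GU

namespace Pool.Agent.Helper59.IP

open Finset

section

variable {α β γ : Type} (T : α → β → γ → Prop)

/-- The non-adjacent pairs. -/
def eE : α ⊕ ((α × β) ⊕ Unit) → β ⊕ (γ ⊕ Unit) → Prop
  | Sum.inl _, Sum.inl _ => True
  | Sum.inl _, Sum.inr _ => False
  | Sum.inr (Sum.inl _), Sum.inl _ => False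
  | Sum.inr (Sum.inl p), Sum.inr (Sum.inl k) => T p.1 p.2 k
  | Sum.inr (Sum.inl _), Sum.inr (Sum.inr _) => False
  | Sum.inr (Sum.inr _), _ => False

/-- The first halves of the equations. -/
def eB : (α × β) ⊕ Option Bool → α ⊕ ((α × β) ⊕ Unit) → Prop
  | Sum.inl p, Sum.inl i => p.1 = i
  | Sum.inl p, Sum.inr (Sum.inl q) => p = q
  | Sum.inl _, Sum.inr (Sum.inr _) => False
  | Sum.inr none, Sum.inl _ => False
  | Sum.inr none, Sum.inr _ => True
  | Sum.inr (some false), Sum.inl _ => False
  | Sum.inr (some false), Sum.inr _ => True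
  | Sum.inr (some true), _ => False

/-- The second halves of the equations. -/
def eD : (α × β) ⊕ Option Bool → β ⊕ (γ ⊕ Unit) → Prop
  | Sum.inl p, Sum.inl j => p.2 = j
  | Sum.inl _, Sum.inr _ => False
  | Sum.inr none, Sum.inl _ => False
  | Sum.inr none, Sum.inr _ => True
  | Sum.inr (some false), _ => False
  | Sum.inr (some true), Sum.inl _ => False
  | Sum.inr (some true), Sum.inr _ => True

variable [Fintype α] [Fintype β] [Fintype γ] {C : Type} [CommRing C]
  (y : α ⊕ ((α × β) ⊕ Unit) → C) (z : β ⊕ (γ ⊕ Unit) → C)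

lemma rel_pair (p : α × β) : rel (eE T) eB eD (Sum.inl p) y z =
    (1 + y (Sum.inl p.1)) * (1 + z (Sum.inl p.2)) + y (Sum.inr (Sum.inl p)) := by
  classical
  have hz : ∀ (c : β ⊕ (γ ⊕ Unit) → Prop), (∑ j, if c j then (if eD (Sum.inl p) j then z j else 0)
      else 0) = if c (Sum.inl p.2) then z (Sum.inl p.2) else 0 := by
    intro c
    rw [sum_eq_single (Sum.inl p.2)]
    · rw [if_pos (show eD (Sum.inl p) (Sum.inl p.2 : β ⊕ (γ ⊕ Unit)) from rfl)]
    · rintro (j | j) _ hj
      · rw [if_neg (show ¬ eD (Sum.inl p) (Sum.inl j : β ⊕ (γ ⊕ Unit)) from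
          fun h => hj (congrArg Sum.inl (show p.2 = j from h).symm)), ite_self]
      · rw [if_neg (show ¬ eD (Sum.inl p) (Sum.inr j : β ⊕ (γ ⊕ Unit)) from id), ite_self]
    · intro h
      exact absurd (mem_univ _) h
  have hz1 : (∑ j : β ⊕ (γ ⊕ Unit), if eD (Sum.inl p) j then z j else 0) = z (Sum.inl p.2) := by
    have h := hz fun _ => True
    simpa only [↓reduceIte] using h
  rw [rel, bi, hz1, sum_eq_add (Sum.inl p.1) (Sum.inr (Sum.inl p)) Sum.inl_ne_inr]
  · rw [hz, hz, if_pos (show eB (Sum.inl p) (Sum.inl p.1) from rfl),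
      if_pos (show eB (Sum.inl p) (Sum.inr (Sum.inl p)) from rfl),
      if_pos (show eE T (Sum.inl p.1) (Sum.inl p.2) from trivial),
      if_neg (show ¬ eE T (Sum.inr (Sum.inl p)) (Sum.inl p.2) from id)]
    ring
  · rintro (i | q | i) _ ⟨h1, h2⟩
    · rw [if_neg (show ¬ eB (Sum.inl p) (Sum.inl i) from
        fun h => h1 (congrArg Sum.inl (show p.1 = i from h).symm)), zero_mul]
    · rw [if_neg (show ¬ eB (Sum.inl p) (Sum.inr (Sum.inl q)) from
        fun h => h2 (congrArg (fun t => Sum.inr (Sum.inl t)) (show p = q from h).symm)), zero_mul]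
    · rw [if_neg (show ¬ eB (Sum.inl p) (Sum.inr (Sum.inr i)) from id), zero_mul]
  · intro h
    exact absurd (mem_univ _) h
  · intro h
    exact absurd (mem_univ _) h

open Classical in
lemma rel_main : rel (eE T) eB eD (Sum.inr none) y z =
    (1 + y (Sum.inr (Sum.inr ())) + ∑ p, y (Sum.inr (Sum.inl p))) +
      (1 + z (Sum.inr (Sum.inr ())) + ∑ k, z (Sum.inr (Sum.inl k))) - 1 +
      ∑ p : α × β, ∑ k, if T p.1 p.2 k then y (Sum.inr (Sum.inl p)) * z (Sum.inr (Sum.inl k))
        else 0 := by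
  simp only [rel, bi, Fintype.sum_sum_type, eE, eB, eD, ↓reduceIte, sum_const_zero, add_zero,
    Finset.univ_unique, sum_singleton, mul_zero, zero_mul, ite_self, zero_add, mul_one, mul_add,
    sum_add_distrib, mul_sum, mul_ite]
  have h : (default : Unit) = () := rfl
  rw [h]
  ring

lemma rel_a : rel (eE T) eB eD (Sum.inr (some false)) y z =
    1 + y (Sum.inr (Sum.inr ())) + ∑ p, y (Sum.inr (Sum.inl p)) := by
  classical
  simp only [rel, bi, Fintype.sum_sum_type, eE, eB, eD, ↓reduceIte, sum_const_zero, add_zero,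
    Finset.univ_unique, sum_singleton, mul_zero, zero_mul, ite_self, zero_add, mul_one]
  have h : (default : Unit) = () := rfl
  rw [h]
  ring

lemma rel_b : rel (eE T) eB eD (Sum.inr (some true)) y z =
    1 + z (Sum.inr (Sum.inr ())) + ∑ k, z (Sum.inr (Sum.inl k)) := by
  classical
  simp only [rel, bi, Fintype.sum_sum_type, eE, eB, eD, ↓reduceIte, sum_const_zero, add_zero,
    Finset.univ_unique, sum_singleton, mul_zero, zero_mul, ite_self, zero_add, mul_one]
  have h : (default : Unit) = () := rfl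
  rw [h]
  ring

open Classical in
/-- The points of the hypersurface `T = 1`. -/
noncomputable def triVal (x : α → C) (y : β → C) (z : γ → C) : C :=
  ∑ i, ∑ j, ∑ k, if T i j k then x i * y j * z k else 0

lemma triVal_map {C' : Type} [CommRing C'] (f : C →+* C') (x : α → C) (y : β → C) (z : γ → C) :
    triVal T (fun i => f (x i)) (fun j => f (y j)) (fun k => f (z k)) = f (triVal T x y z) := by
  classical
  simp only [triVal, map_sum]
  apply sum_congr rfl
  intro i _
  apply sum_congr rfl
  intro j _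
  apply sum_congr rfl
  intro k _
  rw [apply_ite f, map_mul, map_mul, map_zero]

/-- The functor of the hypersurface `T = 1`. -/
noncomputable def TF : PF where
  pts C _ := {q : (α → C) × (β → C) × (γ → C) // triVal T q.1 q.2.1 q.2.2 = 1}
  map f q := ⟨(fun i => f (q.1.1 i), fun j => f (q.1.2.1 j), fun k => f (q.1.2.2 k)), by
    rw [triVal_map, q.2, map_one]⟩
  map_id _ := rfl
  map_comp _ _ _ := rfl

open Classical in
lemma sum_neg_pair (x : α → C) (y : β → C) (z : γ → C) :
    (∑ p : α × β, ∑ k, if T p.1 p.2 k then -(x p.1 * y p.2) * -z k else 0) = triVal T x y z := by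
  rw [triVal, Fintype.sum_prod_type]
  apply sum_congr rfl
  intro i _
  apply sum_congr rfl
  intro j _
  apply sum_congr rfl
  intro k _
  rw [neg_mul_neg]

/-- from the system to the hypersurface -/
lemma enc_fwd (h : ∀ r, rel (eE T) eB eD r y z = 0) :
    triVal T (fun i => 1 + y (Sum.inl i)) (fun j => 1 + z (Sum.inl j))
      (fun k => -z (Sum.inr (Sum.inl k))) = 1 := by
  classical
  have h1 := h (Sum.inr none)
  have h2 := h (Sum.inr (some false))
  have h3 := h (Sum.inr (some true))
  rw [rel_a] at h2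
  rw [rel_b] at h3
  rw [rel_main, h2, h3] at h1
  have h4 : ∀ p : α × β, y (Sum.inr (Sum.inl p)) =
      -((1 + y (Sum.inl p.1)) * (1 + z (Sum.inl p.2))) := by
    intro p
    have h5 := h (Sum.inl p)
    rw [rel_pair] at h5
    linear_combination h5
  rw [← sum_neg_pair]
  have h6 : ∀ p : α × β, ∀ k : γ, (if T p.1 p.2 k then
      -((fun i => 1 + y (Sum.inl i)) p.1 * (fun j => 1 + z (Sum.inl j)) p.2) *
        -(fun k => -z (Sum.inr (Sum.inl k))) k else 0) =
      if T p.1 p.2 k then y (Sum.inr (Sum.inl p)) * z (Sum.inr (Sum.inl k)) else 0 := by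
    intro p k
    rw [h4 p, neg_neg]
  simp only [h6]
  linear_combination h1

/-- the first half of the point of the system -/
def encY (x : α → C) (y : β → C) : α ⊕ ((α × β) ⊕ Unit) → C :=
  Sum.elim (fun i => x i - 1) (Sum.elim (fun p => -(x p.1 * y p.2)) fun _ =>
    -1 + ∑ p : α × β, x p.1 * y p.2)

/-- the second half of the point of the system -/
def encZ (y : β → C) (z : γ → C) : β ⊕ (γ ⊕ Unit) → C :=
  Sum.elim (fun j => y j - 1) (Sum.elim (fun k => -z k) fun _ => -1 + ∑ k, z k)

lemma enc_bwd (x : α → C) (y : β → C) (z : γ → C) (h : triVal T x y z = 1)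
    (r : (α × β) ⊕ Option Bool) : rel (eE T) eB eD r (encY x y) (encZ y z) = 0 := by
  classical
  have ha : 1 + encY x y (Sum.inr (Sum.inr ())) + ∑ p, encY x y (Sum.inr (Sum.inl p)) = 0 := by
    change 1 + (-1 + ∑ p : α × β, x p.1 * y p.2) + ∑ p : α × β, -(x p.1 * y p.2) = 0
    rw [sum_neg_distrib]
    ring
  have hb : 1 + encZ y z (Sum.inr (Sum.inr ())) + ∑ k, encZ y z (Sum.inr (Sum.inl k)) = 0 := by
    change 1 + (-1 + ∑ k, z k) + ∑ k, -z k = 0
    rw [sum_neg_distrib]
    ring
  rcases r with p | _ | _ | _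
  · rw [rel_pair]
    change (1 + (x p.1 - 1)) * (1 + (y p.2 - 1)) + -(x p.1 * y p.2) = 0
    ring
  · rw [rel_main, ha, hb]
    change 0 + 0 - 1 + (∑ p : α × β, ∑ k, if T p.1 p.2 k then -(x p.1 * y p.2) * -z k else 0) = 0
    rw [sum_neg_pair, h]
    ring
  · rw [rel_a, ha]
  · rw [rel_b, hb]

/-- **The system is the hypersurface.** -/
noncomputable def encIso : PIso ((PT.aff ((α ⊕ ((α × β) ⊕ Unit)) ⊕ (β ⊕ (γ ⊕ Unit)))).zeros
    (relF (eE T) eB eD)) (TF T) where
  fwd p := ⟨(fun i => 1 + p.1.2 (Sum.inl (Sum.inl i)), fun j => 1 + p.1.2 (Sum.inr (Sum.inl j)),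
    fun k => -p.1.2 (Sum.inr (Sum.inr (Sum.inl k)))),
    enc_fwd T (fun i => p.1.2 (Sum.inl i)) (fun j => p.1.2 (Sum.inr j)) p.2⟩
  bwd q := ⟨((), Sum.elim (encY q.1.1 q.1.2.1) (encZ q.1.2.1 q.1.2.2)),
    enc_bwd T q.1.1 q.1.2.1 q.1.2.2 q.2⟩
  left p := by
    have h : ∀ r, rel (eE T) eB eD r (fun i => p.1.2 (Sum.inl i)) (fun j => p.1.2 (Sum.inr j)) = 0 :=
      p.2
    have h4 : ∀ p' : α × β, p.1.2 (Sum.inl (Sum.inr (Sum.inl p'))) =
        -((1 + p.1.2 (Sum.inl (Sum.inl p'.1))) * (1 + p.1.2 (Sum.inr (Sum.inl p'.2)))) := by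
      intro p'
      have h5 := h (Sum.inl p')
      rw [rel_pair] at h5
      linear_combination h5
    have h2 := h (Sum.inr (some false))
    have h3 := h (Sum.inr (some true))
    rw [rel_a] at h2
    rw [rel_b] at h3
    apply Subtype.ext
    apply Prod.ext
    · rfl
    · funext v
      rcases v with (i | p' | _) | (j | k | _)
      · exact add_sub_cancel_left _ _
      · exact (h4 p').symm
      · change -1 + ∑ p' : α × β, (1 + p.1.2 (Sum.inl (Sum.inl p'.1))) *
          (1 + p.1.2 (Sum.inr (Sum.inl p'.2))) = p.1.2 (Sum.inl (Sum.inr (Sum.inr ())))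
        have h6 : ∑ p' : α × β, (1 + p.1.2 (Sum.inl (Sum.inl p'.1))) *
          (1 + p.1.2 (Sum.inr (Sum.inl p'.2))) =
          -∑ p' : α × β, p.1.2 (Sum.inl (Sum.inr (Sum.inl p'))) := by
          rw [← sum_neg_distrib]
          apply sum_congr rfl
          intro p' _
          rw [h4 p', neg_neg]
        rw [h6]
        linear_combination -h2
      · exact add_sub_cancel_left _ _
      · exact neg_neg _
      · change -1 + ∑ k, -p.1.2 (Sum.inr (Sum.inr (Sum.inl k))) =
          p.1.2 (Sum.inr (Sum.inr (Sum.inr ())))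
        rw [sum_neg_distrib]
        linear_combination -h3
  right q := by
    apply Subtype.ext
    apply Prod.ext
    · funext i
      exact add_sub_cancel _ _
    · apply Prod.ext
      · funext j
        exact add_sub_cancel _ _
      · funext k
        exact neg_neg _
  nat f p := by
    apply Subtype.ext
    apply Prod.ext
    · funext i
      change 1 + f _ = f (1 + _)
      rw [map_add, map_one]
    · apply Prod.ext
      · funext j
        change 1 + f _ = f (1 + _)
        rw [map_add, map_one]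
      · funext k
        exact (map_neg f _).symm

end

end Pool.Agent.Helper59.IP
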