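import Pool.Agent.Helper59.IP.Main

/-!
# Finitely many graphs for each scheme

For each scheme of finite type there is a finite list of graphs covered by three cliques such that every
property with the closure properties that holds for the hypersurfaces of the independence polynomials of
the list holds for the scheme.
-/

set_option autoImplicit false

open CategoryTheory AlgebraicGeometry Pool.Agent.Y116.UV Pool.Agent.Z125.UN Pool.Agent.Q193.LT
  Pool.Agent.Helper3.GU

universe w w'

namespace Pool.Agent.Helper59.IP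

/-- A finite list of graphs `G` with the vertices `0, …, n - 1` (for some `n`) that are covered by three
cliques. -/
def IsIndList (L : List (Σ n : ℕ, SimpleGraph (Fin n))) : Prop := ∀ G ∈ L, ThreeCliques G.2

variable {R : Type} [CommRing R] {sep : Prop}

/-- The schemes that are decided by finitely many schemes of a family. -/
def Star (sep : Prop) (F : ∀ n : ℕ, SimpleGraph (Fin n) → Sch R) (X : Sch R) : Prop :=
  ∃ L : List (Σ n : ℕ, SimpleGraph (Fin n)), IsIndList L ∧
    ∀ P : Sch R → Prop, Mot sep P → (∀ G ∈ L, P (F G.1 G.2)) → P X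

variable {F : ∀ n : ℕ, SimpleGraph (Fin n) → Sch R}

lemma Star.map {X Y : Sch R} (h : Star sep F X) (hXY : ∀ P : Sch R → Prop, Mot sep P → P X → P Y) :
    Star sep F Y := by
  obtain ⟨L, hL, h⟩ := h
  exact ⟨L, hL, fun P hP hG => hXY P hP (h P hP hG)⟩

lemma Star.map₂ {X Y Z : Sch R} (hX : Star sep F X) (hY : Star sep F Y)
    (h : ∀ P : Sch R → Prop, Mot sep P → P X → P Y → P Z) : Star sep F Z := by
  obtain ⟨L, hL, hX⟩ := hX
  obtain ⟨L', hL', hY⟩ := hY
  refine ⟨L ++ L', fun G hG => ?_, fun P hP hG => h P hP (hX P hP fun G h1 => hG G ?_)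
    (hY P hP fun G h1 => hG G ?_)⟩
  · rcases List.mem_append.1 hG with hG | hG
    · exact hL G hG
    · exact hL' G hG
  · exact List.mem_append.2 (Or.inl h1)
  · exact List.mem_append.2 (Or.inr h1)

theorem mot_star : Mot sep (Star sep F) where
  iso hX e h := h.map fun _ hP => hP.iso hX e
  total i j hX ht hZ hU := hZ.map₂ hU fun _ hP => hP.total i j hX ht
  opened i j hX ht hZ hX' := hZ.map₂ hX' fun _ hP => hP.opened i j hX ht
  closed i j hX ht hX' hU := hX'.map₂ hU fun _ hP => hP.closed i j hX ht
  space n := ⟨[], fun G hG => absurd hG (by simp), fun _ hP _ => hP.space n⟩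
  jouanolou B _ _ _ m f U j hj hr h := h.map fun _ hP => hP.jouanolou B m f U j hj hr
  torus B _ _ _ h := h.map fun _ hP => hP.torus B
  line B _ _ _ h := h.map fun _ hP => hP.line B

lemma star_self {n : ℕ} {G : SimpleGraph (Fin n)} (hG : ThreeCliques G) : Star sep F (F n G) :=
  ⟨[⟨n, G⟩], fun G' h => by rw [List.mem_singleton.1 h]; exact hG,
    fun _ _ h => h ⟨n, G⟩ (List.mem_singleton.2 rfl)⟩

/-- **Finitely many graphs.** Let `R` be a ring such that all algebras of finite type have presentations
with coefficients `0` and `1`. For each scheme `X` of finite type over `R` there is a finite list `L` of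
graphs covered by three cliques such that every property with the closure properties `Mot` that holds for
the schemes of one of the four kinds attached to the graphs in `L` holds for `X`. -/
theorem finite_list (hR : Presents ({0, 1} : Set R)) (X : Sch R) (hX : FT sep X) :
    ∃ L : List (Σ n : ℕ, SimpleGraph (Fin n)), IsIndList L ∧
      ∀ P : Sch R → Prop, Mot sep P →
        ((∀ G ∈ L, P (indS R G.2)) ∨ (∀ G ∈ L, P (indH R G.2)) ∨
          (∀ G ∈ L, P (indT R G.2)) ∨ ∀ G ∈ L, P (indHT R G.2)) → P X := by
  have h1 : Star sep (fun _ G => indS R G) X :=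
    universal_S mot_star hR (fun n G hG => star_self (F := fun _ G => indS R G) hG) X hX
  have h3 : Star sep (fun _ G => indT R G) X :=
    universal_T mot_star hR (fun n G hG => star_self (F := fun _ G => indT R G) hG) X hX
  obtain ⟨L1, hL1, h1⟩ := h1
  obtain ⟨L3, hL3, h3⟩ := h3
  refine ⟨L1 ++ L3, fun G hG => ?_, fun P hP h => ?_⟩
  · rcases List.mem_append.1 hG with hG | hG
    · exact hL1 G hG
    · exact hL3 G hG
  · rcases h with h | h | h | h
    · exact h1 P hP fun G hG => h G (List.mem_append.2 (Or.inl hG))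
    · exact h1 P hP fun G hG => (indH_iff hP G.2).1 (h G (List.mem_append.2 (Or.inl hG)))
    · exact h3 P hP fun G hG => h G (List.mem_append.2 (Or.inr hG))
    · exact h3 P hP fun G hG => (indHT_iff hP G.2).1 (h G (List.mem_append.2 (Or.inr hG)))

lemma ft_indHT {n : ℕ} (G : SimpleGraph (Fin n)) : FT sep (indHT R G) := by
  have := ft_loc (R := R) (MvPolynomial (Fin n) R ⧸ Ideal.span {indPoly R G})
    (Ideal.Quotient.mk (Ideal.span {indPoly R G})
      (∏ v, (MvPolynomial.X v : MvPolynomial (Fin n) R)))
  exact ft_aff sep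

/-- The six statements about a statement `Q`, a property `P` of schemes and a finite list of graphs. -/
def IndListStatements (Q : Prop) (P : Sch R → Prop)
    (L : List (Σ n : ℕ, SimpleGraph (Fin n))) : List Prop :=
  [Q, ∀ X : Sch R, FT True X → P X, ∀ G ∈ L, P (indS R G.2), ∀ G ∈ L, P (indH R G.2),
    ∀ G ∈ L, P (indT R G.2), ∀ G ∈ L, P (indHT R G.2)]

/-- **One variety and finitely many graphs.** For each scheme `S` of finite type over `R` there is a
finite list of graphs such that, for all properties `P` with the closure properties and all statements `Q`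
which follow from `P(S)` and imply `P(X)` for all `X`, the six statements are equivalent. -/
theorem list_tfae (hR : Presents ({0, 1} : Set R)) (S : Sch R) (hS : FT True S) :
    ∃ L : List (Σ n : ℕ, SimpleGraph (Fin n)), IsIndList L ∧
      ∀ (P : Sch R → Prop), Mot True P → ∀ Q : Prop, (P S → Q) → (Q → ∀ X, FT True X → P X) →
        (IndListStatements Q P L).TFAE := by
  obtain ⟨L, hL, h⟩ := finite_list hR S hS
  refine ⟨L, hL, fun P hP Q h1 h2 => ?_⟩
  unfold IndListStatements
  tfae_have 1 → 2 := h2
  tfae_have 2 → 3 := fun h G _ => h _ (ft_indS G.2)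
  tfae_have 3 ↔ 4 := ⟨fun h G hG => (indH_iff hP G.2).2 (h G hG),
    fun h G hG => (indH_iff hP G.2).1 (h G hG)⟩
  tfae_have 2 → 5 := fun h G _ => h _ (ft_indT G.2)
  tfae_have 2 → 6 := fun h G _ => h _ (ft_indHT G.2)
  tfae_have 3 → 1 := fun h' => h1 (h P hP (Or.inl h'))
  tfae_have 5 → 1 := fun h' => h1 (h P hP (Or.inr (Or.inr (Or.inl h'))))
  tfae_have 6 → 1 := fun h' => h1 (h P hP (Or.inr (Or.inr (Or.inr h'))))
  tfae_finish

/-- The version for comparison maps over prime fields. -/
theorem list_pair {k : Type} [Field k] [PerfectField k] (hF : Frac k) (S : Sch k)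
    (hS : SmoothProj S) :
    ∃ L : List (Σ n : ℕ, SimpleGraph (Fin n)), IsIndList L ∧
      ∀ {ι : Type} {E : Type w'} [CommRing E] (C : PairData.{w} k ι E) {δ τ σ : ι ≃ ι},
        WeightGen C → IsPair C δ τ σ → BijAll C (aff k k) →
        ∀ Q : Prop, (BijAll C S → Q) → (Q → ∀ Y, SmoothProj Y → BijAll C Y) →
        (IndListStatements Q (BijAll C) L).TFAE := by
  obtain ⟨L, hL, h⟩ := list_tfae (presents_frac hF) S hS.ft
  exact ⟨L, hL, fun {ι E} _ C {δ τ σ} hg hC h1 Q hQ1 hQ2 => h (BijAll C) (mot_of_bnd (bnd_pair hC h1)) Q hQ1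
    fun hQ => (all_iff (bnd_pair hC h1)).mpr ((wg_all hg hC h1).mp (hQ2 hQ))⟩

end Pool.Agent.Helper59.IP
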