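import Pool.Agent.Helper59.IP.Enc
import Pool.Agent.Helper3.GU.One
import Pool.Agent.Helper3.GU.Fin

/-!
# Independence polynomials decide every motivic property

If a property of schemes of finite type is closed under closed-open decompositions and under the usual
affine bundles, then it is true for all schemes of finite type as soon as it is true for the complements
of the hypersurfaces of the independence polynomials of the graphs that are covered by three cliques, in
the affine spaces or in the tori.
-/

set_option autoImplicit false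

open CategoryTheory AlgebraicGeometry Pool.Agent.Y116.UV Pool.Agent.Q282.UK Pool.Agent.Z125.UN
  Pool.Agent.Q193.LT Pool.Agent.Helper3.GU

universe w w' w1 w2 v u

namespace Pool.Agent.Helper59.IP

section

variable {R : Type} [CommRing R] {sep : Prop} {P : Sch R → Prop}

open Classical in
/-- The hypersurfaces `T(x, y, z) = 1`. -/
lemma hyp_of_holds (hP : Mot sep P) {a b c : ℕ} (T : Fin a → Fin b → Fin c → R)
    (hT : ∀ i j l, T i j l ∈ ({0, 1} : Set R)) (h : Holds P (TF fun i j l => T i j l = 1)) :
    P (aff R (Hyp T)) := by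
  let F : PF := PT.aff (Fin a ⊕ (Fin b ⊕ Fin c))
  let g : NF F := ⟨fun p => triVal (fun i j l => T i j l = 1) (fun i => p.2 (Sum.inl i))
    (fun j => p.2 (Sum.inr (Sum.inl j))) (fun k => p.2 (Sum.inr (Sum.inr k))) - 1, fun f p => by
      rw [map_sub, map_one, ← triVal_map]
      rfl⟩
  have h1 := (rep_PT (R := R)).aff (Fin a ⊕ (Fin b ⊕ Fin c))
  have h2 : g.fn (PT.map MvPolynomial.C (), MvPolynomial.X) = Pool.Agent.Y116.UV.tri T - 1 := by
    change triVal _ _ _ _ - 1 = _
    congr 1
    rw [triVal, Pool.Agent.Y116.UV.tri]
    apply Finset.sum_congr rfl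
    intro i _
    apply Finset.sum_congr rfl
    intro j _
    apply Finset.sum_congr rfl
    intro k _
    by_cases h2 : T i j k = 1
    · rw [if_pos h2, h2, map_one, one_mul]
    · rw [if_neg h2]
      rcases hT i j k with h3 | h3
      · rw [h3, map_zero, zero_mul, zero_mul, zero_mul]
      · exact absurd h3 h2
  let e : PIso (F.zero g) (TF fun i j l => T i j l = 1) :=
    ⟨fun p => ⟨(fun i => p.1.2 (Sum.inl i), fun j => p.1.2 (Sum.inr (Sum.inl j)),
      fun k => p.1.2 (Sum.inr (Sum.inr k))), sub_eq_zero.1 p.2⟩,
      fun y => ⟨((), Sum.elim y.1.1 (Sum.elim y.1.2.1 y.1.2.2)), sub_eq_zero.2 y.2⟩, fun p => by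
        apply Subtype.ext
        apply Prod.ext
        · rfl
        · funext k
          rcases k with k | k | k <;> rfl, fun _ => rfl, fun _ _ => rfl⟩
  exact h.of_rep hP ((h1.zero g h2).congr e)

/-- **Independence polynomials decide every motivic property.** -/
theorem universal_of_holds (hP : Mot sep P) (hR : Presents ({0, 1} : Set R))
    (h : ∀ (V : Type) [Fintype V] (G : SimpleGraph V), ThreeCliques G → Holds P (IU G ∅))
    (X : Sch R) (hX : FT sep X) : P X := by
  classical
  refine universal hP.toUni (S := {0, 1}) (by simp) (by simp) ?_ hR X hX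
  intro a b c T hT
  exact hyp_of_holds hP T hT ((holds_sys _ eB eD hP h).congr (encIso _))

/-- Affine space. -/
theorem universal_S (hP : Mot sep P) (hR : Presents ({0, 1} : Set R))
    (h : ∀ (n : ℕ) (G : SimpleGraph (Fin n)), ThreeCliques G → P (indS R G)) (X : Sch R)
    (hX : FT sep X) : P X :=
  universal_of_holds hP hR (fun _ _ G hG => holds_empty h G hG) X hX

/-- Torus. -/
theorem universal_T (hP : Mot sep P) (hR : Presents ({0, 1} : Set R))
    (h : ∀ (n : ℕ) (G : SimpleGraph (Fin n)), ThreeCliques G → P (indT R G)) (X : Sch R)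
    (hX : FT sep X) : P X := by
  classical
  exact universal_of_holds hP hR (fun V _ G hG => holds_IU hP
    (fun _ _ G hG => holds_univ h G hG) _ V G ∅ hG rfl) X hX

/-! ### Hypersurfaces -/

lemma ft_mvF (n : ℕ) : Algebra.FiniteType R (MvPolynomial (Fin n) R) := inferInstance

/-- A hypersurface and its complement. -/
theorem indH_iff (hP : Mot sep P) {n : ℕ} (G : SimpleGraph (Fin n)) :
    P (indH R G) ↔ P (indS R G) := by
  have h := triple_away (R := R) (indPoly R G)
  constructor
  · intro h1
    exact hP.opened _ _ (ft_aff sep) h h1 (space_of hP _)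
  · intro h1
    exact hP.closed _ _ (ft_aff sep) h (space_of hP _) h1

/-- the product of the variables -/
noncomputable def pF (V : Type) [Fintype V] : NF (PT.aff V) where
  fn p := ∏ v, p.2 v
  nat f p := by
    change ∏ v, f (p.2 v) = _
    rw [map_prod]

/-- the product of the variables on the hypersurface -/
noncomputable def pZ {V : Type} [Fintype V] (G : SimpleGraph V) : NF ((PT.aff V).zero (iF G)) where
  fn p := ∏ v, p.1.2 v
  nat f p := by
    change ∏ v, f (p.1.2 v) = _
    rw [map_prod]

/-- the partition function on the torus -/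
noncomputable def iP {V : Type} [Fintype V] (G : SimpleGraph V) : NF ((PT.aff V).unit (pF V)) where
  fn p := indSum G p.1.2
  nat f p := by
    change indSum G (fun v => f (p.1.2 v)) = _
    rw [indSum_map]

lemma holds_torus (hP : Mot sep P) (n : ℕ) : Holds P ((PT.aff (Fin n)).unit (pF (Fin n))) := by
  have h0 : Holds P PT := ⟨R, inferInstance, inferInstance, inferInstance, (), rep_PT, by
    have h := hP.space 0
    exact iso_alg hP.toUni (MvPolynomial.isEmptyAlgEquiv R (Fin 0)) h⟩
  refine (h0.tor hP (Fin n)).congr (PIso.symm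
    ⟨fun p => ((), fun v => (IsUnit.prod_univ_iff.1 (show IsUnit (∏ v, p.1.2 v) from p.2) v).unit),
    fun q => ⟨((), fun v => (q.2 v : _)), IsUnit.prod_univ_iff.2 fun v => (q.2 v).isUnit⟩,
    fun p => rfl, fun q => Prod.ext rfl (funext fun v => Units.ext rfl),
    fun f p => Prod.ext rfl (funext fun v => Units.ext rfl)⟩)

/-- the hypersurface in the torus in two descriptions -/
noncomputable def zIso {V : Type} [Fintype V] (G : SimpleGraph V) :
    PIso (((PT.aff V).zero (iF G)).unit (pZ G)) (((PT.aff V).unit (pF V)).zero (iP G)) where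
  fwd p := ⟨⟨p.1.1, p.2⟩, p.1.2⟩
  bwd p := ⟨⟨p.1.1, p.2⟩, p.1.2⟩
  left _ := rfl
  right _ := rfl
  nat _ _ := rfl

/-- the complement in the torus in two descriptions -/
noncomputable def uIso {V : Type} [Fintype V] (G : SimpleGraph V) :
    PIso ((PT.aff V).unit (iT G)) (((PT.aff V).unit (pF V)).unit (iP G)) where
  fwd p := ⟨⟨p.1, isUnit_of_mul_isUnit_right p.2⟩, isUnit_of_mul_isUnit_left p.2⟩
  bwd p := ⟨p.1.1, p.2.mul p.1.2⟩
  left _ := rfl
  right _ := rfl
  nat _ _ := rfl

/-- A hypersurface in the torus and its complement. -/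
theorem indHT_iff (hP : Mot sep P) {n : ℕ} (G : SimpleGraph (Fin n)) :
    P (indHT R G) ↔ P (indT R G) := by
  have h1 := (rep_PT (R := R)).aff (Fin n)
  have h2 := h1.zero (iF G) rfl
  have h3 := (h2.unit (pZ G) (w := Ideal.Quotient.mk (Ideal.span {indPoly R G})
    (∏ v, (MvPolynomial.X v : MvPolynomial (Fin n) R))) (by
      rw [map_prod]
      rfl)).congr (zIso G)
  have h4 := (h1.unit (iT G) rfl).congr (uIso G)
  have ht := holds_torus (R := R) hP n
  constructor
  · intro h
    have h5 : Holds P (((PT.aff (Fin n)).unit (pF (Fin n))).zero (iP G)) :=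
      ⟨_, inferInstance, inferInstance, ft_loc _ _, _, h3, h⟩
    exact (ht.opened hP (iP G) h5).of_rep hP h4
  · intro h
    have h5 : Holds P (((PT.aff (Fin n)).unit (pF (Fin n))).unit (iP G)) :=
      ⟨_, inferInstance, inferInstance, ft_loc _ _, _, h4, h⟩
    exact (ht.closed hP (iP G) h5).of_rep hP h3

lemma ft_indS {n : ℕ} (G : SimpleGraph (Fin n)) : FT sep (indS R G) := by
  have := ft_loc (R := R) (MvPolynomial (Fin n) R) (indPoly R G)
  exact ft_aff sep

lemma ft_indT {n : ℕ} (G : SimpleGraph (Fin n)) : FT sep (indT R G) := by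
  have := ft_loc (R := R) (MvPolynomial (Fin n) R) (indPoly R G * ∏ v, MvPolynomial.X v)
  exact ft_aff sep

/-- The statements: all schemes of finite type (separated if `sep` is true); the complements in the
affine space of the hypersurfaces of the independence polynomials of the graphs covered by three cliques;
these hypersurfaces; the complements of these hypersurfaces in the torus; their intersections with the
torus. -/
def IndStatements (sep : Prop) (P : Sch R → Prop) : List Prop :=
  [∀ X : Sch R, FT sep X → P X,
    ∀ (n : ℕ) (G : SimpleGraph (Fin n)), ThreeCliques G → P (indS R G),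
    ∀ (n : ℕ) (G : SimpleGraph (Fin n)), ThreeCliques G → P (indH R G),
    ∀ (n : ℕ) (G : SimpleGraph (Fin n)), ThreeCliques G → P (indT R G),
    ∀ (n : ℕ) (G : SimpleGraph (Fin n)), ThreeCliques G → P (indHT R G)]

/-- **Graphs covered by three cliques are universal.** Let `R` be a ring such that all algebras of finite
type have presentations with coefficients `0` and `1` (for example `ℤ`, `ℚ`, `𝔽_p`), and let `P` be a
property of the schemes of finite type over `R` with the closure properties `Mot`. -/
theorem ind_tfae (hP : Mot sep P) (hR : Presents ({0, 1} : Set R)) :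
    (IndStatements sep P).TFAE := by
  rw [IndStatements]
  tfae_have 1 → 2 := fun h n G _ => h _ (ft_indS G)
  tfae_have 1 → 4 := fun h n G _ => h _ (ft_indT G)
  tfae_have 2 ↔ 3 := by
    constructor
    · intro h n G hG
      exact (indH_iff hP G).2 (h n G hG)
    · intro h n G hG
      exact (indH_iff hP G).1 (h n G hG)
  tfae_have 4 ↔ 5 := by
    constructor
    · intro h n G hG
      exact (indHT_iff hP G).2 (h n G hG)
    · intro h n G hG
      exact (indHT_iff hP G).1 (h n G hG)
  tfae_have 2 → 1 := fun h X hX => universal_S hP hR h X hX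
  tfae_have 4 → 1 := fun h X hX => universal_T hP hR h X hX
  tfae_finish

end

/-! ### Smooth projective schemes over the prime fields -/

section

variable {k : Type} [Field k] {P : Sch k → Prop}

/-- The statements for smooth projective schemes, all separated schemes of finite type, and independence
polynomials. -/
def IndStatements' (P : Sch k → Prop) : List Prop :=
  (∀ Y : Sch k, SmoothProj Y → P Y) :: IndStatements True P

/-- If smooth projective schemes generate then the six statements are equivalent. -/
theorem ind_cons (hP : Mot True P) (hF : Frac k)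
    (hg : (∀ Y : Sch k, SmoothProj Y → P Y) → ∀ X : Sch k, FT True X → P X) :
    (IndStatements' P).TFAE := by
  have h := ind_tfae hP (presents_frac hF)
  rw [IndStatements', IndStatements, List.tfae_cons_cons]
  exact ⟨⟨hg, fun h Y hY => h Y hY.ft⟩, h⟩

/-- With resolution of singularities. -/
theorem ind_hironaka [PerfectField k] (hk : Hironaka k) (hP : Bnd True P) (hF : Frac k) :
    (IndStatements' P).TFAE :=
  ind_cons (mot_of_bnd hP) hF fun h => (all_iff hP).mpr ((sp_all_iff hk hP).mp h)

/-- One more statement in front. -/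
theorem ind_cons_all {R : Type} [CommRing R] {sep : Prop} {P : Sch R → Prop} {Q : Prop}
    (h : (IndStatements sep P).TFAE) (hQ : Q ↔ ∀ X : Sch R, FT sep X → P X) :
    (Q :: IndStatements sep P).TFAE := by
  rw [IndStatements] at h ⊢
  rw [List.tfae_cons_cons]
  exact ⟨hQ, h⟩

/-- Another form of the first statement. -/
theorem ind_cons_congr {Q : Prop} (h : (IndStatements' P).TFAE)
    (hQ : Q ↔ ∀ Y : Sch k, SmoothProj Y → P Y) : (Q :: IndStatements True P).TFAE := by
  rw [IndStatements', IndStatements, List.tfae_cons_cons] at h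
  exact ind_cons_all (by rw [IndStatements]; exact h.2) (hQ.trans h.1)

end

section

variable {k : Type} [Field k] [PerfectField k] {ι : Type} {E : Type w'} [CommRing E]
  {C : PairData.{w} k ι E} {δ τ σ : ι ≃ ι}

/-- Comparison maps of two theories with weight complexes. -/
theorem ind_pair (hg : WeightGen C) (hC : IsPair C δ τ σ) (h1 : BijAll C (aff k k)) (hF : Frac k) :
    (IndStatements' (BijAll C)).TFAE :=
  ind_cons (mot_of_bnd (bnd_pair hC h1)) hF fun h =>
    (all_iff (bnd_pair hC h1)).mpr ((wg_all hg hC h1).mp h)

end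

section

variable {k : Type} [Field k] [PerfectField k] {A : Type u} [Category.{v} A] [Abelian A]
  {D : CompactData k A} {S : A → Prop}

/-- Serre classes of the cohomology with compact supports. -/
theorem ind_serre (hD : IsCompact D) (hg : Generated D) (hS : IsTateSerre D S)
    (h1 : ∀ i, S (D.H i (aff k k))) (hF : Frac k) :
    (IndStatements' fun X => ∀ i, S (D.H i X)).TFAE :=
  ind_cons (mot_of_bnd (bnd_compact hD hS h1)) hF fun h =>
    (all_iff (bnd_compact hD hS h1)).mpr ((proj_all_iff hD hg hS h1).mp h)

end

/-- Bijectivity of a comparison map together with finite generation of a third theory. -/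
theorem ind_fin {k : Type} [Field k] [PerfectField k] {ι ι' : Type} {E : Type w'} [CommRing E]
    {E' : Type w1} [CommRing E'] [IsNoetherianRing E'] {C : PairData.{w} k ι E}
    {N : ι' → Sch k → ModuleCat.{w2} E'} {δ τ σ : ι ≃ ι} {δ' τ' σ' : ι' ≃ ι'}
    (hg : WeightGen C) (hC : IsPair C δ τ σ) (h1 : BijAll C (aff k k))
    (hg' : FinGenerated N) (hN : IsTheory N δ' τ' σ') (h1' : FinGen N (aff k k)) (hF : Frac k) :
    (IndStatements' fun X => FinGen N X ∧ BijAll C X).TFAE :=
  ind_cons (mot_of_bnd (bnd_and (bnd_finGen hN h1') (bnd_pair hC h1))) hF fun h X hX =>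
    ⟨hg' (fun Y hY => (h Y hY).1) X hX, (all_iff (bnd_pair hC h1)).mpr
      ((wg_all hg hC h1).mp fun Y hY => (h Y hY).2) X hX⟩

end Pool.Agent.Helper59.IP
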