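import Pool.Agent.Helper59.IP.A

/-!
# The graphs covered by three cliques with prescribed non-adjacent pairs
-/

set_option autoImplicit false

namespace Pool.Agent.Helper59.IP

open Finset

section

variable {K₁ K₂ K₃ : Type}

/-- The adjacency of the graph: three cliques, and elements of different cliques are adjacent unless they
are related by `c₁₂`, `c₁₃`, `c₂₃`. -/
def triAdj (c₁₂ : K₁ → K₂ → Prop) (c₁₃ : K₁ → K₃ → Prop) (c₂₃ : K₂ → K₃ → Prop) :
    K₁ ⊕ (K₂ ⊕ K₃) → K₁ ⊕ (K₂ ⊕ K₃) → Prop
  | Sum.inl a, Sum.inl b => a ≠ b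
  | Sum.inl a, Sum.inr (Sum.inl b) => ¬ c₁₂ a b
  | Sum.inl a, Sum.inr (Sum.inr b) => ¬ c₁₃ a b
  | Sum.inr (Sum.inl a), Sum.inl b => ¬ c₁₂ b a
  | Sum.inr (Sum.inl a), Sum.inr (Sum.inl b) => a ≠ b
  | Sum.inr (Sum.inl a), Sum.inr (Sum.inr b) => ¬ c₂₃ a b
  | Sum.inr (Sum.inr a), Sum.inl b => ¬ c₁₃ b a
  | Sum.inr (Sum.inr a), Sum.inr (Sum.inl b) => ¬ c₂₃ b a
  | Sum.inr (Sum.inr a), Sum.inr (Sum.inr b) => a ≠ b

/-- The graph covered by three cliques. -/
def tri (c₁₂ : K₁ → K₂ → Prop) (c₁₃ : K₁ → K₃ → Prop) (c₂₃ : K₂ → K₃ → Prop) :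
    SimpleGraph (K₁ ⊕ (K₂ ⊕ K₃)) where
  Adj := triAdj c₁₂ c₁₃ c₂₃
  symm := ⟨by
    rintro (a | a | a) (b | b | b) h
    · exact Ne.symm h
    · exact h
    · exact h
    · exact h
    · exact Ne.symm h
    · exact h
    · exact h
    · exact h
    · exact Ne.symm h⟩
  loopless := ⟨by
    rintro (a | a | a) h
    · exact h rfl
    · exact h rfl
    · exact h rfl⟩

lemma threeCliques_tri (c₁₂ : K₁ → K₂ → Prop) (c₁₃ : K₁ → K₃ → Prop) (c₂₃ : K₂ → K₃ → Prop) :
    ThreeCliques (tri c₁₂ c₁₃ c₂₃) := by
  refine ⟨Sum.elim (fun _ => 0) (Sum.elim (fun _ => 1) fun _ => 2), ?_⟩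
  rintro (a | a | a) (b | b | b) h h1
  · exact fun h2 => h (congrArg _ h2)
  · simp at h1
  · simp at h1
  · simp at h1
  · exact fun h2 => h (congrArg _ (congrArg _ h2))
  · simp at h1
  · simp at h1
  · simp at h1
  · exact fun h2 => h (congrArg _ (congrArg _ h2))

end

section

variable {K₁ K₂ K₃ C : Type} [Fintype K₁] [Fintype K₂] [Fintype K₃] [CommRing C]

open Classical in
/-- The independence polynomial of a graph covered by two cliques. -/
noncomputable def bi (c : K₂ → K₃ → Prop) (y : K₂ → C) (z : K₃ → C) : C :=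
  1 + ∑ j, z j + ∑ i, y i * (1 + ∑ j, if c i j then z j else 0)

lemma bi_map {D : Type} [CommRing D] (f : C →+* D) (c : K₂ → K₃ → Prop) (y : K₂ → C) (z : K₃ → C) :
    bi c (fun i => f (y i)) (fun j => f (z j)) = f (bi c y z) := by
  rw [bi, bi, map_add, map_add, map_one, map_sum, map_sum]
  congr 1
  apply sum_congr rfl
  intro i _
  rw [map_mul, map_add, map_one, map_sum]
  congr 2
  apply sum_congr rfl
  intro j _
  rw [apply_ite f, map_zero]

variable (c₁₂ : K₁ → K₂ → Prop) (c₁₃ : K₁ → K₃ → Prop) (c₂₃ : K₂ → K₃ → Prop)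

omit [Fintype K₁] in
lemma tri_inner (w : K₂ ⊕ K₃ → C) : indSum ((tri c₁₂ c₁₃ c₂₃).comap Sum.inr) w =
    bi c₂₃ (fun i => w (Sum.inl i)) (fun j => w (Sum.inr j)) := by
  classical
  rw [indSum_clique]
  · rw [indSum_top, bi]
    · congr 1
      apply sum_congr rfl
      intro i _
      rw [indSum_top]
      · congr 2
        apply sum_congr rfl
        intro j _
        by_cases h : c₂₃ i j
        · exact (if_neg (not_not.2 h : ¬ ¬ c₂₃ i j)).trans (if_pos h).symm
        · exact (if_pos (show ¬ c₂₃ i j from h)).trans (if_neg h).symm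
      · intro a b hab
        exact hab
    · intro a b hab
      exact hab
  · intro a b hab
    exact hab

open Classical in
/-- **The independence polynomial of a graph covered by three cliques.** -/
lemma tri_sum (x : K₁ ⊕ (K₂ ⊕ K₃) → C) : indSum (tri c₁₂ c₁₃ c₂₃) x =
    bi c₂₃ (fun i => x (Sum.inr (Sum.inl i))) (fun j => x (Sum.inr (Sum.inr j))) +
      ∑ k, x (Sum.inl k) * bi c₂₃ (fun i => if c₁₂ k i then x (Sum.inr (Sum.inl i)) else 0)
        (fun j => if c₁₃ k j then x (Sum.inr (Sum.inr j)) else 0) := by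
  rw [indSum_clique _ (fun a b hab => hab), tri_inner]
  congr 1
  apply sum_congr rfl
  intro k _
  rw [tri_inner]
  congr 2
  · funext i
    by_cases h : c₁₂ k i
    · exact (if_neg (not_not.2 h : ¬ ¬ c₁₂ k i)).trans (if_pos h).symm
    · exact (if_pos (show ¬ c₁₂ k i from h)).trans (if_neg h).symm
  · funext j
    by_cases h : c₁₃ k j
    · exact (if_neg (not_not.2 h : ¬ ¬ c₁₃ k j)).trans (if_pos h).symm
    · exact (if_pos (show ¬ c₁₃ k j from h)).trans (if_neg h).symm

end

/-! ### The graph of a system of equations -/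

section

variable {I J ρ : Type} (E : I → J → Prop) (B : ρ → I → Prop) (D : ρ → J → Prop)

/-- The relation between the first and the second clique: the vertex `none` of the first clique is not
adjacent to any vertex of the second one, the vertex `none` of the second clique is adjacent to the
vertices `some r`. -/
def r12 : Option ρ → Option I → Prop
  | none, _ => True
  | some _, none => False
  | some r, some i => B r i

/-- The relation between the first and the third clique. -/
def r13 : Option ρ → J → Prop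
  | none, _ => True
  | some r, j => D r j

/-- The relation between the second and the third clique. -/
def r23 : Option I → J → Prop
  | none, _ => False
  | some i, j => E i j

/-- The graph of a system of equations. -/
def sysG : SimpleGraph (Option ρ ⊕ (Option I ⊕ J)) := tri (r12 B) (r13 D) (r23 E)

variable {C : Type} [Fintype I] [Fintype J] [Fintype ρ] [CommRing C]

open Classical in
/-- The polynomials of the system: the independence polynomials of the induced subgraphs on the sets
`B r`, `D r`. -/
noncomputable def rel (r : ρ) (y : I → C) (z : J → C) : C :=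
  bi E (fun i => if B r i then y i else 0) (fun j => if D r j then z j else 0)

omit [Fintype ρ] in
lemma rel_map {C' : Type} [CommRing C'] (f : C →+* C') (r : ρ) (y : I → C) (z : J → C) :
    rel E B D r (fun i => f (y i)) (fun j => f (z j)) = f (rel E B D r y z) := by
  classical
  rw [rel, rel, ← bi_map]
  congr 1
  · funext i
    rw [apply_ite f, map_zero]
  · funext j
    rw [apply_ite f, map_zero]

lemma bi_option (y : Option I → C) (z : J → C) :
    bi (r23 E) y z = y none + bi E (fun i => y (some i)) z := by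
  classical
  rw [bi, bi, Fintype.sum_option]
  have h : (∑ j, if r23 E none j then z j else 0) = 0 := by
    apply sum_eq_zero
    intro j _
    exact if_neg (show ¬ r23 E none j from id)
  rw [h]
  have h2 : ∀ i j, (if r23 E (some i) j then z j else 0) = if E i j then z j else 0 := by
    intro i j
    rfl
  simp only [h2]
  ring

/-- The independence polynomial of the graph of the system. -/
lemma sysG_sum (x : Option ρ ⊕ (Option I ⊕ J) → C) : indSum (sysG E B D) x =
    (1 + x (Sum.inl none)) * (x (Sum.inr (Sum.inl none)) +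
      bi E (fun i => x (Sum.inr (Sum.inl (some i)))) (fun j => x (Sum.inr (Sum.inr j)))) +
      ∑ r, x (Sum.inl (some r)) * rel E B D r (fun i => x (Sum.inr (Sum.inl (some i))))
        (fun j => x (Sum.inr (Sum.inr j))) := by
  classical
  rw [sysG, tri_sum, Fintype.sum_option, bi_option]
  have h1 : bi (r23 E) (fun i => if r12 B none i then x (Sum.inr (Sum.inl i)) else 0)
      (fun j => if r13 D none j then x (Sum.inr (Sum.inr j)) else 0) =
      x (Sum.inr (Sum.inl none)) +
      bi E (fun i => x (Sum.inr (Sum.inl (some i)))) (fun j => x (Sum.inr (Sum.inr j))) := by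
    rw [bi_option]
    have h2 : ∀ i, (if r12 B none i then x (Sum.inr (Sum.inl i)) else 0) =
        x (Sum.inr (Sum.inl i)) := fun i => if_pos trivial
    have h3 : ∀ j, (if r13 D none j then x (Sum.inr (Sum.inr j)) else 0) =
        x (Sum.inr (Sum.inr j)) := fun j => if_pos trivial
    simp only [h2, h3]
  have h4 : ∀ r, bi (r23 E) (fun i => if r12 B (some r) i then x (Sum.inr (Sum.inl i)) else 0)
      (fun j => if r13 D (some r) j then x (Sum.inr (Sum.inr j)) else 0) =
      rel E B D r (fun i => x (Sum.inr (Sum.inl (some i)))) (fun j => x (Sum.inr (Sum.inr j))) := by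
    intro r
    rw [bi_option, rel, if_neg (show ¬ r12 B (some r) none from id), zero_add]
    rfl
  rw [h1, sum_congr rfl fun r _ => by rw [h4 r]]
  ring

end

end Pool.Agent.Helper59.IP
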