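import Pool.Agent.Helper59.IP.B
import Pool.Agent.Helper59.IP.Tri

/-!
# From independence polynomials to systems of equations
-/

set_option autoImplicit false

open CategoryTheory AlgebraicGeometry Pool.Agent.Y116.UV Pool.Agent.Q282.UK Pool.Agent.Helper3.GU

namespace Pool.Agent.Helper59.IP

variable {R : Type} [CommRing R] {sep : Prop} {P : Sch R → Prop}

/-! ### Jouanolou's device -/

section

variable {F : PF}

lemma hasRep_jou (hF : HasRep R F) {κ : Type} [Fintype κ] (g : κ → NF F) : HasRep R (F.jou g) := by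
  let f : NF (F.aff κ) := ⟨fun p => ∑ l, (g l).fn p.1 * p.2 l - 1, fun f p => by
    change ∑ l, (g l).fn (F.map f p.1) * f (p.2 l) - 1 = _
    simp only [(g _).nat, ← map_mul, ← map_sum, map_sub, map_one]⟩
  exact ((hF.aff κ).zero f).congr ⟨fun p => ⟨p.1, sub_eq_zero.1 p.2⟩,
    fun p => ⟨p.1, sub_eq_zero.2 p.2⟩, fun _ => rfl, fun _ => rfl, fun _ _ => rfl⟩

/-- Renaming the equations. -/
def zerosCongr {κ κ' : Type} (e : κ' ≃ κ) (f : κ → NF F) : PIso (F.zeros (f ∘ e)) (F.zeros f) where
  fwd p := ⟨p.1, fun k => by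
    have h := p.2 (e.symm k)
    rwa [Function.comp_apply, e.apply_symm_apply] at h⟩
  bwd p := ⟨p.1, fun k => p.2 (e k)⟩
  left _ := rfl
  right _ := rfl
  nat _ _ := rfl

/-- From the whole space and the affine bundle over the complement of the common zeros to the common
zeros. -/
theorem holds_zeros (hP : Mot sep P) (hF : Holds P F) {κ : Type} [Fintype κ] (g : κ → NF F)
    (h : Holds P (F.jou g)) : Holds P (F.zeros g) := by
  obtain ⟨B, i1, i2, i3, b, h1, h2⟩ := hF
  let e := (Fintype.equivFin κ).symm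
  obtain ⟨q, hq⟩ := h1.jou (g ∘ e)
  have h3 := (h.congr (jouCongr F e g)).of_rep hP hq
  have h4 := of_jou hP.toUni _ h2 h3
  have h5 : Holds P (F.zeros (g ∘ e)) :=
    ⟨_, inferInstance, inferInstance, inferInstance, _, h1.zeros (g ∘ e), h4⟩
  exact h5.congr (zerosCongr e g)

end

/-! ### The unit trick -/

section

variable {F : PF} {ρ : Type} [Fintype ρ] (g : ρ → NF F)

/-- the linear combination of the functions -/
def lin : NF (F.aff ρ) where
  fn p := ∑ r, p.2 r * (g r).fn p.1
  nat f p := by
    change ∑ r, f (p.2 r) * (g r).fn (F.map f p.1) = _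
    simp only [(g _).nat, ← map_mul, ← map_sum]

/-- the function `a b + ∑ v_r g_r` -/
def quad : NF ((F.aff ρ).aff Bool) where
  fn p := p.2 false * p.2 true + (lin g).fn p.1
  nat f p := by
    change f (p.2 false) * f (p.2 true) + (lin g).fn ((F.aff ρ).map f p.1) = _
    rw [(lin g).nat, map_add, map_mul]

/-- the function `b` -/
def bF : NF (((F.aff ρ).aff Bool).unit (quad g)) where
  fn p := p.1.2 true
  nat _ _ := rfl

/-- the part `b ≠ 0` -/
noncomputable def unitIso : PIso ((((F.aff ρ).aff Bool).unit (quad g)).unit (bF g))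
    ((F.aff ρ).tor Bool) where
  fwd p := (p.1.1.1, fun t => match t with
    | true => IsUnit.unit p.2
    | false => IsUnit.unit p.1.2)
  bwd q := ⟨⟨(q.1, fun t => match t with
    | true => (q.2 true : _)
    | false => ((q.2 false : _) - (lin g).fn q.1) * ((q.2 true)⁻¹ : _ˣ)), by
      change IsUnit (((q.2 false : _) - (lin g).fn q.1) * ((q.2 true)⁻¹ : _ˣ) * (q.2 true : _) +
        (lin g).fn q.1)
      rw [mul_assoc, Units.inv_mul, mul_one, sub_add_cancel]
      exact (q.2 false).isUnit⟩, (q.2 true).isUnit⟩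
  left p := by
    apply Subtype.ext
    apply Subtype.ext
    apply Prod.ext
    · rfl
    · funext t
      cases t
      · have h : (IsUnit.unit p.1.2 : _) = p.1.1.2 false * p.1.1.2 true + (lin g).fn p.1.1.1 := rfl
        change ((IsUnit.unit p.1.2 : _) - (lin g).fn p.1.1.1) * ((IsUnit.unit p.2)⁻¹ : _ˣ) =
          p.1.1.2 false
        rw [h, add_sub_cancel_right, Units.mul_inv_eq_iff_eq_mul]
        rfl
      · rfl
  right q := by
    apply Prod.ext
    · rfl
    · funext t
      cases t
      · apply Units.ext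
        change ((q.2 false : _) - (lin g).fn q.1) * ((q.2 true)⁻¹ : _ˣ) * (q.2 true : _) +
          (lin g).fn q.1 = (q.2 false : _)
        rw [mul_assoc, Units.inv_mul, mul_one, sub_add_cancel]
      · exact Units.ext rfl
  nat f p := by
    apply Prod.ext
    · rfl
    · funext t
      cases t
      · apply Units.ext
        change (quad g).fn (((F.aff ρ).aff Bool).map f p.1.1) = f ((quad g).fn p.1.1)
        rw [(quad g).nat]
      · exact Units.ext rfl

/-- the part `b = 0` -/
noncomputable def zeroIso : PIso ((((F.aff ρ).aff Bool).unit (quad g)).zero (bF g))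
    (((F.aff ρ).unit (lin g)).aff Unit) where
  fwd p := (⟨p.1.1.1, by
    have h : IsUnit (p.1.1.2 false * p.1.1.2 true + (lin g).fn p.1.1.1) := p.1.2
    have h2 : p.1.1.2 true = 0 := p.2
    rwa [h2, mul_zero, zero_add] at h⟩, fun _ => p.1.1.2 false)
  bwd q := ⟨⟨(q.1.1, fun t => match t with
    | true => 0
    | false => q.2 ()), by
      change IsUnit (q.2 () * 0 + (lin g).fn q.1.1)
      rw [mul_zero, zero_add]
      exact q.1.2⟩, rfl⟩
  left p := by
    apply Subtype.ext
    apply Subtype.ext
    apply Prod.ext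
    · rfl
    · funext t
      cases t
      · rfl
      · exact (show p.1.1.2 true = 0 from p.2).symm
  right q := rfl
  nat f p := rfl

lemma sum_unit {C : Type} [CommRing C] (w f : ρ → C) (u : Cˣ) (h : ∑ r, f r * w r = 1) :
    ∑ r, w r * (u : C) * f r = u := by
  have h1 : ∑ r, w r * (u : C) * f r = (∑ r, f r * w r) * u := by
    rw [Finset.sum_mul]
    apply Finset.sum_congr rfl
    intro r _
    ring
  rw [h1, h, one_mul]

lemma sum_unit' {C : Type} [CommRing C] (w f : ρ → C) (u : Cˣ) (h : ∑ r, w r * f r = u) :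
    ∑ r, f r * (w r * (u⁻¹ : Cˣ)) = 1 := by
  have h1 : ∑ r, f r * (w r * (u⁻¹ : Cˣ)) = (∑ r, w r * f r) * (u⁻¹ : Cˣ) := by
    rw [Finset.sum_mul]
    apply Finset.sum_congr rfl
    intro r _
    ring
  rw [h1, h, Units.mul_inv]

/-- the points where the linear combination is invertible -/
noncomputable def linIso : PIso ((F.aff ρ).unit (lin g)) ((F.jou g).tor Unit) where
  fwd {C} _ p := (⟨(p.1.1, fun r => p.1.2 r * ((IsUnit.unit p.2)⁻¹ : Cˣ)),
    sum_unit' p.1.2 (fun r => (g r).fn p.1.1) (IsUnit.unit p.2) rfl⟩, fun _ => IsUnit.unit p.2)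
  bwd {C} _ q := ⟨(q.1.1.1, fun r => q.1.1.2 r * (q.2 () : C)), by
    have h2 : (lin g).fn ((q.1.1.1, fun r => q.1.1.2 r * (q.2 () : C)) : (F.aff ρ).pts C) =
      (q.2 () : C) := sum_unit q.1.1.2 (fun r => (g r).fn q.1.1.1) (q.2 ()) q.1.2
    exact (congrArg IsUnit h2).mpr (q.2 ()).isUnit⟩
  left {C} _ p := by
    apply Subtype.ext
    apply Prod.ext
    · rfl
    · funext r
      change p.1.2 r * ((IsUnit.unit p.2)⁻¹ : Cˣ) * (IsUnit.unit p.2 : C) = p.1.2 r
      rw [mul_assoc, Units.inv_mul, mul_one]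
  right {C} _ q := by
    have h2 : (lin g).fn ((q.1.1.1, fun r => q.1.1.2 r * (q.2 () : C)) : (F.aff ρ).pts C) =
      (q.2 () : C) := sum_unit q.1.1.2 (fun r => (g r).fn q.1.1.1) (q.2 ()) q.1.2
    have h3 : ∀ hu : IsUnit ((lin g).fn
        ((q.1.1.1, fun r => q.1.1.2 r * (q.2 () : C)) : (F.aff ρ).pts C)),
        IsUnit.unit hu = q.2 () := fun hu => Units.ext h2
    apply Prod.ext
    · apply Subtype.ext
      apply Prod.ext
      · rfl
      · funext r
        change q.1.1.2 r * (q.2 () : C) * ((IsUnit.unit _)⁻¹ : Cˣ) = q.1.1.2 r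
        rw [h3, mul_assoc, Units.mul_inv, mul_one]
    · funext _
      exact h3 _
  nat {C C'} _ _ f p := by
    have h3 : ∀ hu : IsUnit ((lin g).fn ((F.aff ρ).map f p.1)),
        IsUnit.unit hu = Units.map (f : C →* C') (IsUnit.unit p.2) := fun hu =>
      Units.ext ((lin g).nat f p.1)
    apply Prod.ext
    · apply Subtype.ext
      apply Prod.ext
      · rfl
      · funext r
        exact (congrArg (fun u : C'ˣ => f (p.1.2 r) * ((u⁻¹ : C'ˣ) : C')) (h3 _)).trans
          (map_mul f _ _).symm
    · funext _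
      exact h3 _

/-- **The common zeros of the functions `g r`** -/
theorem holds_of_quad (hP : Mot sep P) (hF : Holds P F)
    (h : Holds P (((F.aff ρ).aff Bool).unit (quad g))) : Holds P (F.zeros g) := by
  have h1 : Holds P ((((F.aff ρ).aff Bool).unit (quad g)).unit (bF g)) :=
    ((hF.aff hP ρ).tor hP Bool).congr (unitIso g).symm
  have h2 := (h.closed hP (bF g) h1).congr (zeroIso g)
  have h3 : HasRep R ((F.aff ρ).unit (lin g)) := (hF.hasRep.aff ρ).unit (lin g)
  have h4 := (Holds.of_aff hP h3 h2).congr (linIso g)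
  exact holds_zeros hP hF g (Holds.of_tor hP (hasRep_jou hF.hasRep g) h4)

end

/-! ### The systems -/

section

variable {I J ρ : Type} [Fintype I] [Fintype J] [Fintype ρ] (E : I → J → Prop) (B : ρ → I → Prop)
  (D : ρ → J → Prop)

/-- the polynomials of the system -/
noncomputable def relF (r : ρ) : NF (PT.aff (I ⊕ J)) where
  fn p := rel E B D r (fun i => p.2 (Sum.inl i)) (fun j => p.2 (Sum.inr j))
  nat f p := by
    change rel E B D r (fun i => f (p.2 (Sum.inl i))) (fun j => f (p.2 (Sum.inr j))) = _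
    rw [rel_map]

/-- the points of the complement of the hypersurface of the graph -/
noncomputable def sysIso : PIso (IU (sysG E B D) ∅)
    ((((PT.aff (I ⊕ J)).aff ρ).aff Bool).unit (quad (relF E B D))) where
  fwd x := ⟨((((), Sum.elim (fun i => x.1 (Sum.inr (Sum.inl (some i)))) fun j =>
      x.1 (Sum.inr (Sum.inr j))), fun r => x.1 (Sum.inl (some r))), fun t => match t with
    | true => x.1 (Sum.inr (Sum.inl none)) +
      bi E (fun i => x.1 (Sum.inr (Sum.inl (some i)))) (fun j => x.1 (Sum.inr (Sum.inr j)))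
    | false => 1 + x.1 (Sum.inl none)), by
      have h := x.2.2
      rw [sysG_sum] at h
      exact h⟩
  bwd y := ⟨Sum.elim (fun r => r.elim (y.1.2 false - 1) y.1.1.2) (Sum.elim (fun i => i.elim
    (y.1.2 true - bi E (fun i => y.1.1.1.2 (Sum.inl i)) (fun j => y.1.1.1.2 (Sum.inr j)))
      fun i => y.1.1.1.2 (Sum.inl i)) fun j => y.1.1.1.2 (Sum.inr j)),
      fun v hv => absurd hv (Finset.notMem_empty v), by
      rw [sysG_sum]
      have h1 : 1 + (y.1.2 false - 1) = y.1.2 false := add_sub_cancel _ _
      have h2 : (y.1.2 true - bi E (fun i => y.1.1.1.2 (Sum.inl i)) (fun j => y.1.1.1.2 (Sum.inr j))) +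
        bi E (fun i => y.1.1.1.2 (Sum.inl i)) (fun j => y.1.1.1.2 (Sum.inr j)) = y.1.2 true :=
          sub_add_cancel _ _
      exact (congrArg₂ (fun a b => IsUnit (a * b + (lin (relF E B D)).fn y.1.1)) h1 h2).mpr y.2⟩
  left x := by
    apply Subtype.ext
    funext v
    rcases v with (_ | r) | (_ | i) | j
    · exact add_sub_cancel_left _ _
    · rfl
    · exact add_sub_cancel_right _ _
    · rfl
    · rfl
  right y := by
    apply Subtype.ext
    apply Prod.ext
    · apply Prod.ext
      · apply Prod.ext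
        · rfl
        · funext v
          rcases v with i | j <;> rfl
      · rfl
    · funext t
      cases t
      · exact add_sub_cancel _ _
      · exact sub_add_cancel _ _
  nat f x := by
    apply Subtype.ext
    apply Prod.ext
    · apply Prod.ext
      · apply Prod.ext
        · rfl
        · funext v
          rcases v with i | j <;> rfl
      · rfl
    · funext t
      cases t
      · change 1 + f (x.1 (Sum.inl none)) = f (1 + x.1 (Sum.inl none))
        rw [map_add, map_one]
      · change f (x.1 (Sum.inr (Sum.inl none))) + bi E (fun i => f (x.1 (Sum.inr (Sum.inl (some i)))))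
          (fun j => f (x.1 (Sum.inr (Sum.inr j)))) = f (x.1 (Sum.inr (Sum.inl none)) + _)
        rw [map_add, bi_map]

/-- **The systems of equations.** -/
theorem holds_sys (hP : Mot sep P)
    (h : ∀ (V : Type) [Fintype V] (G : SimpleGraph V), ThreeCliques G → Holds P (IU G ∅)) :
    Holds P ((PT.aff (I ⊕ J)).zeros (relF E B D)) := by
  have h0 : Holds P (PT.aff (I ⊕ J)) := by
    obtain ⟨n, ⟨e⟩⟩ := Finite.exists_equiv_fin (I ⊕ J)
    have := ft_mv (R := R) R n
    have h1 : Holds P (PT.aff (Fin n)) :=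
      ⟨_, inferInstance, inferInstance, ft_mv R n, _, (rep_PT (R := R)).aff (Fin n), hP.space n⟩
    exact h1.congr (affCongr PT e.symm)
  exact holds_of_quad (relF E B D) hP h0
    ((h _ (sysG E B D) (threeCliques_tri _ _ _)).congr (sysIso E B D))

end

end Pool.Agent.Helper59.IP
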